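import Pool.Agent.helper16.CVL.Spec

/-!
# Project cv:, block CVL, row INJ: limits of injective maps (helper84)
-/

set_option autoImplicit false

open Complex Metric Set Filter Topology MeasureTheory
open HY (UD T S hd UN RM)
open RT (UC TD rm lf cr pd bl gr hdf Lf UP)

noncomputable section

namespace CVL

theorem INJ (hNRM : NRM_stmt) (hFRB : FRB_stmt) (hMPF : MPF_stmt) (hTHU : V3.THU_stmt) : INJ_stmt := by
  intro s U W W' x x' χ χ' g G hT hnc hinj z hz z' hz' hzz
  by_contra hne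
  obtain ⟨-, -, -, -, -, -, hΩo, hΩc, -, -⟩ := hFRB s U W x χ hT.fr
  obtain ⟨hGd, -, hO, -, hmv⟩ := hMPF s U W W' x x' χ χ' g G hT
  obtain ⟨R, hR, hRN⟩ := Metric.isOpen_iff.1 hΩo z' hz'
  have hd0 : 0 < dist z z' := dist_pos.2 hne
  obtain ⟨r, hr, hrR, hrd⟩ : ∃ r : ℝ, 0 < r ∧ r < R ∧ r < dist z z' := by
    refine ⟨min R (dist z z') / 2, by positivity, ?_, ?_⟩
    · have := min_le_left R (dist z z')
      have h2 : 0 < min R (dist z z') := lt_min hR hd0
      linarith
    · have := min_le_right R (dist z z')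
      have h2 : 0 < min R (dist z z') := lt_min hR hd0
      linarith
  have hcl : closedBall z' r ⊆ χ '' UD := (closedBall_subset_ball hrR).trans hRN
  have hKΩ : insert z (closedBall z' r) ⊆ χ '' UD := insert_subset hz hcl
  have hKc : IsCompact (insert z (closedBall z' r)) := (isCompact_closedBall z' r).insert z
  have hlim : TendstoLocallyUniformlyOn (fun j => GN (W j) (W' j) (x j) (x' j) (g j)) G U (ball z' r) :=
    hT.cv.mono (ball_subset_closedBall.trans hcl)
  have hdif : ∀ᶠ j in (U : Filter ℕ), DifferentiableOn ℂ (GN (W j) (W' j) (x j) (x' j) (g j)) (ball z' r) := by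
    filter_upwards [hO _ hKΩ hKc] with j hj
    obtain ⟨O, -, hKO, hd⟩ := hj
    exact hd.mono (ball_subset_closedBall.trans ((subset_insert _ _).trans hKO))
  have hv : Tendsto (fun j => GN (W j) (W' j) (x j) (x' j) (g j) z) U (𝓝 (G z')) := by
    rw [← hzz]
    exact (hmv (fun _ => z) z hz tendsto_const_nhds).1
  have hvl : TendstoLocallyUniformlyOn (fun (j : ℕ) (_ : ℂ) => GN (W j) (W' j) (x j) (x' j) (g j) z) (fun _ => G z') U (ball z' r) :=
    (hv.tendstoUniformlyOn_const (ball z' r)).tendstoLocallyUniformlyOn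
  have hlim2 : TendstoLocallyUniformlyOn (fun j ζ => GN (W j) (W' j) (x j) (x' j) (g j) ζ - GN (W j) (W' j) (x j) (x' j) (g j) z)
      (fun ζ => G ζ - G z') U (ball z' r) := by
    rw [Metric.tendstoLocallyUniformlyOn_iff] at hvl ⊢
    have hl := Metric.tendstoLocallyUniformlyOn_iff.1 hlim
    intro ε hε y hy
    obtain ⟨t, ht, h1⟩ := hl (ε / 2) (by positivity) y hy
    obtain ⟨t', ht', h2⟩ := hvl (ε / 2) (by positivity) y hy
    refine ⟨t ∩ t', inter_mem ht ht', ?_⟩
    filter_upwards [h1, h2] with j h3 h4 w hw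
    have h5 := h3 w hw.1
    have h6 := h4 w hw.2
    rw [dist_eq_norm] at h5 h6 ⊢
    have e : G w - G z' - (GN (W j) (W' j) (x j) (x' j) (g j) w - GN (W j) (W' j) (x j) (x' j) (g j) z) =
        (G w - GN (W j) (W' j) (x j) (x' j) (g j) w) - (G z' - GN (W j) (W' j) (x j) (x' j) (g j) z) := by ring
    rw [e]
    calc _ ≤ ‖G w - GN (W j) (W' j) (x j) (x' j) (g j) w‖ + ‖G z' - GN (W j) (W' j) (x j) (x' j) (g j) z‖ := norm_sub_le _ _
      _ < ε := by linarith
  have hx : ∃ y ∈ ball z' r, G y - G z' ≠ 0 := by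
    by_contra hcon
    push Not at hcon
    obtain ⟨w, hw, hdw⟩ := hnc
    have hA : AnalyticOnNhd ℂ G (χ '' UD) := hGd.analyticOnNhd hΩo
    have hC : AnalyticOnNhd ℂ (fun _ : ℂ => G z') (χ '' UD) := analyticOnNhd_const
    have heq : G =ᶠ[𝓝 z'] (fun _ : ℂ => G z') := by
      filter_upwards [ball_mem_nhds z' hr] with ζ hζ
      exact sub_eq_zero.1 (hcon ζ hζ)
    have hEq : EqOn G (fun _ : ℂ => G z') (χ '' UD) := hA.eqOn_of_preconnected_of_eventuallyEq hC hΩc hz' heq
    apply hdw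
    have h1 : G =ᶠ[𝓝 w] (fun _ : ℂ => G z') := by
      filter_upwards [hΩo.mem_nhds hw] with ζ hζ
      exact hEq hζ
    rw [h1.deriv_eq, deriv_const]
  have hzero := hTHU U (fun j ζ => GN (W j) (W' j) (x j) (x' j) (g j) ζ - GN (W j) (W' j) (x j) (x' j) (g j) z) (fun ζ => G ζ - G z') z' r hr
    (hdif.mono fun j hj => hj.sub_const _) hlim2 (sub_self _) hx r hr
  have hev := ((hzero.and (hinj _ hKΩ hKc)).and hT.fr'.td)
  obtain ⟨j, ⟨⟨ζ, hζ, h0⟩, hi⟩, htd⟩ := hev.exists
  obtain ⟨hc, -⟩ := hNRM s (W' j) (x' j) htd.1 htd.2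
  have hc' : (cr (W' j) (x' j) : ℂ) ≠ 0 := Complex.ofReal_ne_zero.2 hc.ne'
  have h0' : GN (W j) (W' j) (x j) (x' j) (g j) ζ = GN (W j) (W' j) (x j) (x' j) (g j) z := sub_eq_zero.1 h0
  unfold GN CO at h0'
  have h1 : g j (PT (W j) (x j) ζ) - x' j = g j (PT (W j) (x j) z) - x' j := by
    field_simp at h0'
    exact h0'
  have h2 : g j (PT (W j) (x j) ζ) = g j (PT (W j) (x j) z) := sub_left_injective h1
  have h3 : ζ = z := hi ζ (mem_insert_of_mem _ (ball_subset_closedBall hζ)) z (mem_insert _ _) h2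
  rw [h3] at hζ
  have := mem_ball.1 hζ
  linarith

end CVL
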